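import Mathlib
import Pool.Agent.Helper42_Binom.TwoAdic

set_option autoImplicit false

namespace Pool.Agent.Results.MP_49e939_nt.Full

/-- `t k = binom(6k, 3k) * binom(3k, k)`. -/
def t (k : ℕ) : ℕ := (6 * k).choose (3 * k) * (3 * k).choose k

/-- The rational number
`a(n) = (1 / ((2n-1) binom(3n, n))) * ∑_{k=0}^{n} t_k t_{n-k}`. -/
def a (n : ℕ) : ℚ :=
  (∑ k ∈ Finset.range (n + 1), (t k : ℚ) * (t (n - k) : ℚ)) /
    ((2 * (n : ℚ) - 1) * ((3 * n).choose n : ℚ))

open Pool.Agent.Helper42_Binom in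
/-- For every `n ≥ 1`, `a(n)` is an integer divisible by `8`, and the integer `a(n)/8` is odd
if and only if `n` is a power of two. -/
theorem result : ∀ n : ℕ, 1 ≤ n →
    ∃ m : ℤ, a n = 8 * (m : ℚ) ∧ (Odd m ↔ ∃ j : ℕ, n = 2 ^ j) := by
  intro n hn
  have hmain := AA_main n hn
  have hD : (2 * (n : ℚ) - 1) * ((3 * n).choose n : ℚ) =
      (((2 * n - 1) * (3 * n).choose n : ℕ) : ℚ) := by
    push_cast [Nat.cast_sub (show 1 ≤ 2 * n by omega)]
    ring
  have hDpos : (2 * n - 1) * (3 * n).choose n ≠ 0 := mul_ne_zero (by omega) (ch_pos n).ne'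
  have hsum : (∑ k ∈ Finset.range (n + 1), (t k : ℚ) * (t (n - k) : ℚ)) =
      ((AA n * ((2 * n - 1) * (3 * n).choose n) : ℕ) : ℚ) := by
    unfold AA
    rw [Finset.sum_mul]
    push_cast
    apply Finset.sum_congr rfl
    intro k hk
    have hk' : k ≤ n := Nat.lt_succ_iff.1 (Finset.mem_range.1 hk)
    have h := cc_mul k (n - k) (by omega)
    rw [show k + (n - k) = n by omega] at h
    have ht : (t k : ℚ) * (t (n - k) : ℚ) = ((tt k * tt (n - k) : ℕ) : ℚ) := by
      push_cast; rfl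
    rw [ht, ← h]
    push_cast
    ring
  have ha : a n = (AA n : ℚ) := by
    unfold a
    rw [hsum, hD, Nat.cast_mul, mul_div_assoc, div_self, mul_one]
    exact_mod_cast hDpos
  have h8 : 8 ∣ AA n := by
    split_ifs at hmain <;> omega
  obtain ⟨m, hm⟩ := h8
  refine ⟨(m : ℤ), ?_, ?_⟩
  · rw [ha, hm]; push_cast; ring
  · rw [Int.odd_iff]
    constructor
    · intro h
      by_contra hne
      rw [if_neg hne] at hmain
      omega
    · intro h
      rw [if_pos h] at hmain
      omega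

end Pool.Agent.Results.MP_49e939_nt.Full
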